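import Pool.Agent.Q271.CosetMain

set_option autoImplicit false

namespace Pool.Agent.Results.MP_f446af_nt.SupportNotBad

open Q271.Coset MeasureTheory

/-- There are a non-singular `2 × 1` matrix `A` and a one-dimensional algebraic measure `μ` with
`μ (Bad A) > 0` whose support is not contained in `Bad A`. -/
theorem result : ∃ (A : Matrix (Fin 2) (Fin 1) ℝ) (μ : Measure (Fin 2 → UnitAddCircle)),
    ¬ Singular A ∧ IsAlgebraic 1 μ ∧ 0 < μ (Bad A) ∧ ¬ (μ.support ⊆ Bad A) := by
  obtain ⟨A, hA, μ, hμ, halg, h⟩ := summary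
  refine ⟨A, μ, hA, halg, ?_, fun hsub => ?_⟩
  · rw [h]
    norm_num
  · have h1 : μ μ.support = 1 := by
      rw [← measure_univ (μ := μ)]
      exact measure_eq_measure_of_null_diff (Set.subset_univ _) (by
        rw [← Set.compl_eq_univ_diff]
        exact Measure.support_mem_ae)
    have h2 : μ μ.support ≤ μ (Bad A) := measure_mono hsub
    rw [h1, h] at h2
    norm_num at h2

end Pool.Agent.Results.MP_f446af_nt.SupportNotBad
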